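import Pool.Agent.Q291.HEA.Model

/-!
# Statements of the lemmas of project HEA (first part: laws of the effective couplings)
-/

namespace Pool.Agent.Q291.HEA

open MeasureTheory Filter Topology Set

/-- The effective coupling of two couplings in series:
`∑ s, exp (x a s + y s b)` is proportional to `exp (F x y a b)`. -/
noncomputable def F (x y : ℝ) : ℝ := 1 / 2 * Real.log (Real.cosh (x + y) / Real.cosh (x - y))

/-- Its zero temperature limit `sign x * sign y * min |x| |y|`. -/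
noncomputable def F0 (x y : ℝ) : ℝ := 1 / 2 * (|x + y| - |x - y|)

/-- Windows of length `l` have mass at most `p`. -/
def Conc (μ : Measure ℝ) (l p : ℝ) : Prop := ∀ x, μ.real (Ico x (x + l)) ≤ p

/-- Symmetric laws. -/
def Sym (μ : Measure ℝ) : Prop := μ.map (fun x => -x) = μ

/-- The law of `f x y` for independent `x`, `y` with law `μ`. -/
noncomputable def ser (f : ℝ → ℝ → ℝ) (μ : Measure ℝ) : Measure ℝ :=
  (μ.prod μ).map (fun z => f z.1 z.2)

/-- The law of the sum of `n` independent variables with law `ν`. -/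
noncomputable def par (ν : Measure ℝ) : ℕ → Measure ℝ
  | 0 => Measure.dirac 0
  | n + 1 => Measure.conv ν (par ν n)

/-- The law of the effective coupling of a cell of level `n`, if the couplings have law `μ`. -/
noncomputable def lawN (B : ℕ) (μ : Measure ℝ) : ℕ → Measure ℝ
  | 0 => μ
  | n + 1 => par (ser F (lawN B μ n)) B

/-! ## Part 1: concentration at zero temperature -/

/-- `k` windows of length `l` which are at distance at least `l` have mass at most `c k`. -/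
def CB (ν : Measure ℝ) (l : ℝ) (c : ℕ → ℝ) : Prop := ∀ (k : ℕ) (y : ℕ → ℝ),
  (∀ j, y j + l ≤ y (j + 1)) → ∑ j ∈ Finset.range k, ν.real (Ico (y j) (y j + l)) ≤ c k

/-- The weights of the chains, `p = u + v`, `u K + v (K + 1) = 1`. -/
noncomputable def wgt (K : ℕ) (u v : ℝ) (s : ℕ) : ℝ :=
  if s = 0 then 0 else if s < K then 2 * (u + v) ^ 2 else
  if s = K then u ^ 2 + 4 * u * v + 2 * v ^ 2 else if s = K + 1 then v ^ 2 else 0

/-- The operator on profiles. -/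
noncomputable def U (K : ℕ) (u v : ℝ) (c : ℕ → ℝ) (k : ℕ) : ℝ :=
  ∑ s ∈ Finset.range (K + 2), wgt K u v s * ∑ r ∈ Finset.range (min s k), c (s + k - 1 - 2 * r)

/-- The trivial profile. -/
noncomputable def c0 (k : ℕ) : ℝ := if k = 0 then 0 else 1

/-- Job S4A. -/
def P_S4A : Prop := ∀ K : ℕ, 24 ≤ K → (U K (1 / K) 0)^[4] c0 1 ≤ 959 / 1000 * (1 / K)

/-- Job S4B. -/
def P_S4B : Prop := ∀ K : ℕ, 2 ≤ K → K ≤ 23 → ∀ u v : ℝ, 0 ≤ u → 0 ≤ v → u * K + v * (K + 1) = 1 →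
  (U K u v)^[4] c0 1 ≤ 99 / 100 * (u + v)

/-- Job S4. -/
def P_S4 : Prop := ∀ p : ℝ, 0 < p → p ≤ 1 / 2 → ∃ (K : ℕ) (u v : ℝ), 2 ≤ K ∧ 0 ≤ u ∧ 0 ≤ v ∧
  u * K + v * (K + 1) = 1 ∧ p ≤ u + v ∧ (U K u v)^[4] c0 1 ≤ 999 / 1000 * p

/-- Job QUANT: the quantile function of a symmetric law, on `(-1, 1)`. -/
def P_QUANT : Prop := ∀ (μ : Measure ℝ) [IsProbabilityMeasure μ] (l p : ℝ), 0 < l → 0 < p → p < 1 →
  Conc μ l p → Sym μ → ∃ q : ℝ → ℝ, Measurable q ∧ MonotoneOn q (Ioo (-1) 1) ∧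
  (∀ w, -1 < w → w + 2 * p < 1 → q w + l ≤ q (w + 2 * p)) ∧
  (∀ᵐ w ∂(volume.restrict (Ioo (-1 : ℝ) 1)), q (-w) = -q w) ∧
  μ = (ENNReal.ofReal (1 / 2) • volume.restrict (Ioo (-1 : ℝ) 1)).map q

/-- The triangular law on `(-1, 1)`. -/
noncomputable def tri : Measure ℝ :=
  (volume.restrict (Ioo (-1 : ℝ) 1)).withDensity (fun w => ENNReal.ofReal (1 - |w|))

/-- Job LAWX: the law of the zero temperature series coupling. -/
def P_LAWX : Prop := ∀ (μ : Measure ℝ) [IsProbabilityMeasure μ] (q : ℝ → ℝ), Measurable q →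
  MonotoneOn q (Ioo (-1) 1) → (∀ᵐ w ∂(volume.restrict (Ioo (-1 : ℝ) 1)), q (-w) = -q w) →
  μ = (ENNReal.ofReal (1 / 2) • volume.restrict (Ioo (-1 : ℝ) 1)).map q →
  ser F0 μ = tri.map q

/-- Job CHAIN: symmetric chains in a grid. -/
def P_CHAIN : Prop := ∀ (ν : Measure ℝ) [IsFiniteMeasure ν] (l : ℝ) (c : ℕ → ℝ), 0 < l → CB ν l c →
  ∀ (s k : ℕ) (x y : ℕ → ℝ), (∀ m, m + 1 < s → x m + l ≤ x (m + 1)) → (∀ j, y j + l ≤ y (j + 1)) →
  ∑ m ∈ Finset.range s, ∑ j ∈ Finset.range k, ν.real (Ico (y j - x m) (y j - x m + l)) ≤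
    ∑ r ∈ Finset.range (min s k), c (s + k - 1 - 2 * r)

/-- Job INTEG: one summand with the law `tri.map q`. -/
def P_INTEG : Prop := ∀ (ν : Measure ℝ) [IsFiniteMeasure ν] (l : ℝ) (c : ℕ → ℝ), 0 < l → CB ν l c →
  ∀ (K : ℕ) (u v : ℝ), 1 ≤ K → 0 ≤ u → 0 ≤ v → u * K + v * (K + 1) = 1 →
  ∀ q : ℝ → ℝ, Measurable q → MonotoneOn q (Ioo (-1) 1) →
  (∀ w, -1 < w → w + 2 * (u + v) < 1 → q w + l ≤ q (w + 2 * (u + v))) →
  CB (Measure.conv (tri.map q) ν) l (U K u v c)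

/-- Job STEP: the concentration inequality at zero temperature. -/
def P_STEP : Prop := ∀ (μ : Measure ℝ) [IsProbabilityMeasure μ] (l p : ℝ), 0 < l → 0 < p →
  p ≤ 1 / 2 → Sym μ → Conc μ l p → ∀ (B : ℕ), 4 ≤ B → Conc (par (ser F0 μ) B) l (999 / 1000 * p)

/-- Job POS: one step at positive temperature. -/
def P_POS : Prop := ∀ (μ : Measure ℝ) [IsProbabilityMeasure μ] (l p : ℝ), 0 < l → 0 < p →
  p ≤ 1 / 2 → Sym μ → ∀ (B : ℕ), 4 ≤ B → Conc μ (l + B) p →
  Conc (par (ser F μ) B) l (999 / 1000 * p)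

/-- Job LAWS: laws of effective couplings are symmetric probability measures. -/
def P_LAWS : Prop := ∀ (B : ℕ) (μ : Measure ℝ) [IsProbabilityMeasure μ], Sym μ → ∀ n,
  IsProbabilityMeasure (lawN B μ n) ∧ Sym (lawN B μ n)

/-- Job ITER: exponential decay of the concentration function at a fixed scale. -/
def P_ITER : Prop := ∀ B : ℕ, 4 ≤ B → ∃ L C ρ : ℝ, 0 < L ∧ 0 < C ∧ 0 < ρ ∧ ρ < 1 ∧
  ∀ (μ : Measure ℝ) [IsProbabilityMeasure μ], Sym μ → Conc μ L (1 / 2) → ∀ n,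
  Conc (lawN B μ n) L (C * ρ ^ n)

/-! ## Part 2: two branches -/

/-- Job D1: the average over signs of the zero temperature series coupling. -/
def P_D1 : Prop := ∀ y1 y2 y3 y4 : ℝ, 0 ≤ y1 → 0 ≤ y2 → 0 ≤ y3 → 0 ≤ y4 →
  let m := (min (y1 + y2) (y3 + y4) + min (y1 + y2) |y3 - y4| + min |y1 - y2| (y3 + y4) +
    min |y1 - y2| |y3 - y4|) / 4
  m ≤ min (max y1 y2) (max y3 y4) ∧
  m ≤ (max y1 y2 + max y3 y4 - max (min y1 y2) (min y3 y4)) / 2 ∧
  m ≤ (max y1 y2 + max y3 y4) / 2 - (|max y1 y2 - max y3 y4| + min y1 y2 + min y3 y4) / 4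

/-- The linear form used if `h` of the four variables are above the median. -/
noncomputable def lam (h : ℕ) (y : Fin 4 → ℝ) : ℝ :=
  if h = 4 then (max (y 0) (y 1) + max (y 2) (y 3)) / 2 -
    (|max (y 0) (y 1) - max (y 2) (y 3)| + min (y 0) (y 1) + min (y 2) (y 3)) / 4
  else if h = 3 then (max (y 0) (y 1) + max (y 2) (y 3) - max (min (y 0) (y 1)) (min (y 2) (y 3))) / 2
  else min (max (y 0) (y 1)) (max (y 2) (y 3))

/-- The probabilities of (above the median, above the level), if the level has tail `x`. -/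
noncomputable def prb (x : ℝ) (a : Bool × Bool) : ℝ :=
  if a.1 then (if a.2 then min x (1 / 2) else 1 / 2 - min x (1 / 2))
  else (if a.2 then max (x - 1 / 2) 0 else 1 / 2 - max (x - 1 / 2) 0)

/-- Job D2: the inequality for the tail. -/
def P_D2 : Prop := ∀ x : ℝ, 0 ≤ x → x ≤ 1 →
  ∑ a : Fin 4 → Bool × Bool, (∏ i, prb x (a i)) *
    lam (Finset.univ.filter fun i => (a i).1 = true).card (fun i => if (a i).2 then 1 else 0) ≤
  97 / 100 * x

/-- Job D3: the contraction for two branches. -/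
def P_D3 : Prop := ∀ (ν : Measure ℝ) [IsProbabilityMeasure ν], Sym ν → Integrable (fun x => x) ν →
  Integrable (fun x => x) (ser F (par ν 2)) ∧
  ∫ x, |x| ∂(ser F (par ν 2)) ≤ 97 / 100 * ∫ x, |x| ∂ν

/-- Job D4: the effective couplings of the two-branch lattice tend to `0` exponentially. -/
def P_D4 : Prop := ∀ (μ : Measure ℝ) [IsProbabilityMeasure μ], Sym μ → Integrable (fun x => x) μ →
  ∀ n, Integrable (fun x => x) (lawN 2 μ n) ∧
  ∫ x, |x| ∂(lawN 2 μ n) ≤ 3 * (97 / 100) ^ n * ∫ x, |x| ∂μ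

end Pool.Agent.Q291.HEA
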