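import Pool.Agent.Q291.HEA.Stm2

/-!
# Statements of the lemmas of project HEA (third part: even events, pure states, ground states)
-/

namespace Pool.Agent.Q291.HEA

open MeasureTheory Filter Topology Set ProbabilityTheory

/-- The other half of branch `0` of the cell of level `n + 1` around the origin. -/
def sib {B : ℕ} [NeZero B] {e : ℕ → Bool} (n : ℕ) : Bond B e := upd orig n (0, !(e n))

/-- The effective couplings for a general series rule `φ` (`eff` is the case `φ = F`). -/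
noncomputable def effG (φ : ℝ → ℝ → ℝ) {B : ℕ} [NeZero B] {e : ℕ → Bool} (K : Bond B e → ℝ) :
    ℕ → Bond B e → ℝ
  | 0, ω => K ω
  | n + 1, ω => ∑ i : Fin B, φ (effG φ K n (upd ω n (i, false))) (effG φ K n (upd ω n (i, true)))

/-! ## Infinitely many levels at which the own half is the stronger one -/

/-- Job MARK: a conditional second Borel-Cantelli lemma. -/
def P_MARK : Prop := ∀ {Ω S T : Type} [mΩ : MeasurableSpace Ω] [MeasurableSpace S]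
  [MeasurableSpace T] (P : Measure Ω) [IsProbabilityMeasure P] (ℱ : ℕ → MeasurableSpace Ω)
  (z : ℕ → Ω → S) (ξ : ℕ → Ω → T) (A : ℕ → Set (S × T)) (c : ℝ), 0 < c → Monotone ℱ →
  (∀ n, ℱ n ≤ mΩ) → (∀ n, Measurable[ℱ n] (z n)) → (∀ n, Measurable[ℱ (n + 1)] (ξ n)) →
  (∀ n, Indep (ℱ n) (MeasurableSpace.comap (ξ n) inferInstance) P) → (∀ n, MeasurableSet (A n)) →
  (∀ n s, c ≤ (P.map (ξ n)).real {t | (s, t) ∈ A n}) →
  ∀ᵐ ω ∂P, ∃ᶠ n in atTop, (z n ω, ξ n ω) ∈ A n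

/-- Job CB: sums of symmetric random variables. -/
def P_CB : Prop := ∀ B : ℕ, 2 ≤ B → ∃ c : ℝ, 0 < c ∧ ∀ (ν : Measure ℝ) [IsProbabilityMeasure ν],
  Sym ν → ∀ x : ℝ, c ≤ ((par ν (B - 1)).prod (par ν B)).real {z | |z.2| ≤ |x + z.1|}

/-- Job IO. -/
def P_IO : Prop := ∀ {B : ℕ} [NeZero B] {e : ℕ → Bool}, Alt e → 2 ≤ B → ∀ (φ : ℝ → ℝ → ℝ),
  Measurable (Function.uncurry φ) → (∀ x y, φ (-x) y = -φ x y) → (∀ x y, φ x (-y) = -φ x y) →
  ∀ (μ : Measure ℝ) [IsProbabilityMeasure μ], Sym μ →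
  ∀ᵐ K ∂(Measure.infinitePi fun _ : Bond B e => μ),
    ∃ᶠ n in atTop, |effG φ K n (sib n)| ≤ |effG φ K n orig|

/-! ## Positive temperature -/

/-- Job HT: high temperature. -/
def P_HT : Prop := ∀ (B : ℕ) (μ : Measure ℝ) [IsProbabilityMeasure μ], Integrable (fun x => x) μ →
  B * ∫ x, |x| ∂μ < 1 → ∃ C ρ : ℝ, 0 < ρ ∧ ρ < 1 ∧ ∀ n, Integrable (fun x => x) (lawN B μ n) ∧
    ∫ x, |x| ∂(lawN B μ n) ≤ C * ρ ^ n

/-- Job EVEN: Gibbs states agree on the events which are invariant under the global spin flip. -/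
def P_EVEN : Prop := ∀ {B : ℕ} [NeZero B] {e : ℕ → Bool}, Alt e → ∀ (K : Bond B e → ℝ),
  (∃ᶠ n in atTop, |eff K n (sib n)| ≤ |eff K n orig|) →
  ∀ π π' : Measure (Site B e → Bool), IsGibbs (lend 0) (rend 0) K π →
  IsGibbs (lend 0) (rend 0) K π' → ∀ A : Set (Site B e → Bool), MeasurableSet A →
  (∀ η : Site B e → Bool, η ∈ A ↔ (fun v => !(η v)) ∈ A) → π.real A = π'.real A

/-- Job TWO: two pure states. -/
def P_TWO : Prop := ∀ {B : ℕ} [NeZero B] {e : ℕ → Bool}, Alt e → ∀ (K : Bond B e → ℝ),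
  Summable (fun n => 1 - Real.tanh (|(|(two K n).1| - |(two K n).2|)|)) →
  (∃ᶠ n in atTop, |eff K n (sib n)| ≤ |eff K n orig|) →
  ∃ π : Measure (Site B e → Bool), IsGibbs (lend 0) (rend 0) K π ∧
    ∀ π' : Measure (Site B e → Bool), IsGibbs (lend 0) (rend 0) K π' → ∃ t : ℝ, 0 ≤ t ∧ t ≤ 1 ∧
      π' = ENNReal.ofReal t • π + ENNReal.ofReal (1 - t) • π.map (fun η v => !(η v))

/-- Job MIX: mixtures of Gibbs states. -/
def P_MIX : Prop := ∀ {V E : Type} [Countable V] (l r : E → V), LF l r → ∀ (K : E → ℝ)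
  (π π' : Measure (V → Bool)), IsGibbs l r K π → IsGibbs l r K π' → ∀ t : ℝ, 0 ≤ t → t ≤ 1 →
  IsGibbs l r K (ENNReal.ofReal t • π + ENNReal.ofReal (1 - t) • π')

/-! ## Ground states -/

/-- Ground states: every change of finitely many spins (at least one) strictly lowers
`∑ K σ σ`. -/
def IsGround {V E : Type} (l r : E → V) (K : E → ℝ) (σ : V → Bool) : Prop :=
  ∀ σ' : V → Bool, σ' ≠ σ → {v | σ' v ≠ σ v}.Finite →
    0 < ∑ᶠ b, K b * (sgn (σ (l b)) * sgn (σ (r b)) - sgn (σ' (l b)) * sgn (σ' (r b)))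

/-- Generic couplings. -/
def Gen {E : Type} (K : E → ℝ) : Prop :=
  ∀ (S : Finset E) (s : E → Bool), S.Nonempty → ∑ b ∈ S, sgn (s b) * K b ≠ 0

/-- Job GEN. -/
def P_GEN : Prop := ∀ {E : Type} [Countable E] (μ : Measure ℝ) [IsProbabilityMeasure μ],
  (∀ x, μ {x} = 0) → ∀ᵐ K ∂(Measure.infinitePi fun _ : E => μ), Gen K

/-- Job GEXI: existence of ground states. -/
def P_GEXI : Prop := ∀ {V E : Type} [Countable V] (l r : E → V), LF l r →
  (∀ D : Set V, D.Finite → D.Nonempty → ∃ b, (l b ∈ D ∧ r b ∉ D) ∨ (l b ∉ D ∧ r b ∈ D)) →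
  ∀ K : E → ℝ, Gen K → ∃ σ, IsGround l r K σ

/-- Job CON: the hierarchical lattice is connected and infinite. -/
def P_CON : Prop := ∀ {B : ℕ} [NeZero B] {e : ℕ → Bool}, Alt e → ∀ D : Set (Site B e), D.Finite →
  D.Nonempty → ∃ b : Bond B e, (lend 0 b ∈ D ∧ rend 0 b ∉ D) ∨ (lend 0 b ∉ D ∧ rend 0 b ∈ D)

/-- Job DECZ: decimation at zero temperature. -/
def P_DECZ : Prop := ∀ {B : ℕ} [NeZero B] {e : ℕ → Bool}, Alt e → ∀ (K : Bond B e → ℝ) (n : ℕ)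
  (ω : Bond B e), ∃ A : ℝ,
  (∀ σ : Site B e → Bool, ∑ᶠ b ∈ cellb n ω, K b * (sgn (σ (lend 0 b)) * sgn (σ (rend 0 b))) ≤
    A + effG F0 K n ω * (sgn (σ (lend n ω)) * sgn (σ (rend n ω)))) ∧
  ∀ σ : Site B e → Bool, ∃ σ' : Site B e → Bool, (∀ v, v ∉ inner n ω → σ' v = σ v) ∧
    ∑ᶠ b ∈ cellb n ω, K b * (sgn (σ' (lend 0 b)) * sgn (σ' (rend 0 b))) =
      A + effG F0 K n ω * (sgn (σ (lend n ω)) * sgn (σ (rend n ω)))

/-- Job GSU: uniqueness of the pair of ground states. -/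
def P_GSU : Prop := ∀ {B : ℕ} [NeZero B] {e : ℕ → Bool}, Alt e → ∀ (K : Bond B e → ℝ), Gen K →
  (∃ᶠ n in atTop, |effG F0 K n (sib n)| ≤ |effG F0 K n orig|) → ∀ σ τ : Site B e → Bool,
  IsGround (lend 0) (rend 0) K σ → IsGround (lend 0) (rend 0) K τ → τ = σ ∨ τ = fun v => !(σ v)

end Pool.Agent.Q291.HEA
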