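import Pool.Agent.Q291.HEA.Fin
import Pool.Agent.Q153.HEA.S4A
import Pool.Agent.Q182.HEA.S4B
import Pool.Agent.Q190.HEA.S4
import Pool.Agent.Q247.HEA.CHAIN
import Pool.Agent.Q247.HEA.INTEG
import Pool.Agent.Q247.HEA.LAWX
import Pool.Agent.Q247.HEA.QUANT
import Pool.Agent.Q247.HEA.STEP
import Pool.Agent.Q150.HEA.HFIN
import Pool.Agent.Q150.HEA.POS
import Pool.Agent.Q66.HEA.BC
import Pool.Agent.Q66.HEA.Lawk
import Pool.Agent.Q66.HEA.Sca
import Pool.Agent.Q48.HEA.D1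
import Pool.Agent.Q48.HEA.D2
import Pool.Agent.Q48.HEA.D3
import Pool.Agent.Q48.HEA.D4
import Pool.Agent.Q261.HEA.GCO
import Pool.Agent.Q261.HEA.GEX
import Pool.Agent.Q261.HEA.GFL
import Pool.Agent.Q261.HEA.GUN
import Pool.Agent.Q102.HEA.DEC
import Pool.Agent.Q102.HEA.DEP
import Pool.Agent.Q102.HEA.MEM
import Pool.Agent.Q111.HEA.LOW
import Pool.Agent.Q111.HEA.OSC

/-!
# The lemmas of the first part of project HEA
-/

namespace Pool.Agent.Q291.HEA.Bas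

open Pool.Agent.Q291.HEA

theorem hfin : P_HFIN := Pool.Agent.Q150.HEA.t_HFIN
theorem ends : P_ENDS := Pool.Agent.Q150.HEA.t_ENDS hfin
theorem gco : P_GCO := Pool.Agent.Q261.HEA.t_GCO
theorem gex : P_GEX := Pool.Agent.Q261.HEA.t_GEX gco
theorem gfl : P_GFL := Pool.Agent.Q261.HEA.t_GFL
theorem gun : P_GUN := Pool.Agent.Q261.HEA.t_GUN
theorem dec : P_DEC := Pool.Agent.Q102.HEA.DEC.t_DEC hfin ends
theorem dep : P_DEP := Pool.Agent.Q102.HEA.DEP.t_DEP hfin ends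
theorem mem : P_MEM := Pool.Agent.Q102.HEA.MEM.t_MEM hfin ends dec gco
theorem osc : P_OSC := Pool.Agent.Q111.HEA.t_OSC hfin ends mem dep gun gex
theorem low : P_LOW := Pool.Agent.Q111.HEA.t_LOW hfin ends mem dep gex
theorem lawk : P_LAWK := Pool.Agent.Q66.HEA.t_LAWK hfin
theorem bc1 : P_BC1 := Pool.Agent.Q66.HEA.t_BC1 lawk
theorem bc2 : P_BC2 := Pool.Agent.Q66.HEA.t_BC2 lawk
theorem sca : P_SCA := Pool.Agent.Q66.HEA.t_SCA
theorem laws : P_LAWS := Pool.Agent.Q66.HEA.t_LAWS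
theorem s4 : P_S4 := Pool.Agent.Q190.HEA.t_S4 Pool.Agent.Q153.HEA.t_S4A Pool.Agent.Q182.HEA.t_S4B
theorem step : P_STEP := Pool.Agent.Q247.HEA.t_STEP Pool.Agent.Q247.HEA.t_QUANT
  Pool.Agent.Q247.HEA.t_LAWX (Pool.Agent.Q247.HEA.t_INTEG Pool.Agent.Q247.HEA.t_CHAIN) s4
theorem iter : P_ITER := Pool.Agent.Q150.HEA.t_ITER laws (Pool.Agent.Q150.HEA.t_POS step)
theorem d4 : P_D4 := t_D4 (t_D3 t_D1 t_D2) laws

noncomputable def round1 (e : ℕ → Bool) (he : Alt e) :=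
  thmE hfin iter d4 osc low gfl bc1 bc2 sca e he

end Pool.Agent.Q291.HEA.Bas
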