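import Pool.Agent.Q291.HEA.Stm2

/-!
# Assembly
-/

namespace Pool.Agent.Q291.HEA

open MeasureTheory Filter Topology Set

theorem thmE (hFIN : P_HFIN) (hITER : P_ITER) (hD4 : P_D4) (hOSC : P_OSC) (hLOW : P_LOW)
    (hGFL : P_GFL) (hBC1 : P_BC1) (hBC2 : P_BC2) (hSCA : P_SCA) (e : ℕ → Bool) (he : Alt e) :
    (∀ (B : ℕ) [NeZero B] (v : Site B e), {b : Bond B e | lend 0 b = v ∨ rend 0 b = v}.Finite) ∧
    (∀ (μ : Measure ℝ) [IsProbabilityMeasure μ], Sym μ → Integrable (fun x => x) μ → ∀ β : ℝ,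
      ∀ᵐ J ∂(Measure.infinitePi fun _ : Bond 2 e => μ), ∃! π, Gibbs β J π) ∧
    (∀ (B : ℕ) [NeZero B], 4 ≤ B → ∀ (μ : Measure ℝ) [IsProbabilityMeasure μ], Sym μ →
      (∃ l : ℝ, 0 < l ∧ Conc μ l (1 / 2)) → ∃ β₀ : ℝ, ∀ β : ℝ, β₀ ≤ β →
      ∀ᵐ J ∂(Measure.infinitePi fun _ : Bond B e => μ),
        (∃ π π', Gibbs β J π ∧ Gibbs β J π' ∧ π ≠ π') ∧
        ∀ δ : ℝ, δ < 1 → ∃ (a : Site B e) (π : Measure (Site B e → Bool)), Gibbs β J π ∧
          Gibbs β J (π.map fun η v => !(η v)) ∧ δ ≤ π.real {η | η a = true}) := by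
  refine ⟨fun B _ v => (hFIN he).2.2.1 v, fun μ _ hs hi β => ?_, fun B _ hB μ _ hs hc => ?_⟩
  · obtain ⟨c1, c2, -⟩ := hFIN (B := 2) he
    obtain ⟨s1, s2, s3, s4⟩ := hSCA (ι := Bond 2 e) μ β
    have : IsProbabilityMeasure (μ.map (fun x => β * x)) :=
      Measure.isProbabilityMeasure_map (measurable_const_mul β).aemeasurable
    have h4 := hD4 (μ.map (fun x => β * x)) (s2 hs) (s4 hi)
    have h5 := hBC2 (B := 2) he (μ.map (fun x => β * x)) (3 * ∫ x, |x| ∂(μ.map (fun x => β * x)))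
      (97 / 100) (by norm_num) (by norm_num) fun n => ⟨(h4 n).1, by
        have := (h4 n).2
        linarith⟩
    have h6 := s1 _ h5
    filter_upwards [h6] with J hJ
    exact hOSC he (fun b => β * J b) hJ
  · obtain ⟨c1, c2, hlf, -⟩ := hFIN (B := B) he
    obtain ⟨L, C, ρ, hL, hC, hρ, hρ1, hit⟩ := hITER B hB
    obtain ⟨l, hl, hcon⟩ := hc
    refine ⟨L / l, fun β hβ => ?_⟩
    have hβ0 : 0 < β := lt_of_lt_of_le (div_pos hL hl) hβ
    obtain ⟨s1, s2, s3, s4⟩ := hSCA (ι := Bond B e) μ β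
    have : IsProbabilityMeasure (μ.map (fun x => β * x)) :=
      Measure.isProbabilityMeasure_map (measurable_const_mul β).aemeasurable
    have hle : L ≤ β * l := by
      rw [div_le_iff₀ hl] at hβ
      exact hβ
    have h4 : Conc (μ.map (fun x => β * x)) L (1 / 2) := fun x =>
      (measureReal_mono (Ico_subset_Ico_right (by linarith)) (measure_ne_top _ _)).trans
        (s3 l (1 / 2) hβ0 hcon x)
    have h5 := hBC1 (B := B) he (μ.map (fun x => β * x)) L C ρ hL hC hρ hρ1
      (hit _ (s2 hs) h4)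
    have h6 := s1 _ h5
    filter_upwards [h6] with J hJ
    have key : ∀ δ : ℝ, δ < 1 → ∃ (a : Site B e) (π : Measure (Site B e → Bool)), Gibbs β J π ∧
          Gibbs β J (π.map fun η v => !(η v)) ∧ δ ≤ π.real {η | η a = true} := by
      intro δ hδ
      obtain ⟨a, π, h1, h2⟩ := hLOW he (fun b => β * J b) hJ δ hδ
      exact ⟨a, π, h1, hGFL _ _ hlf _ π h1, h2⟩
    refine ⟨?_, key⟩
    obtain ⟨a, π, h1, h2, h3⟩ := key (3 / 4) (by norm_num)
    refine ⟨π, _, h1, h2, fun heq => ?_⟩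
    have hp : IsProbabilityMeasure π := h1.1
    have hm : Measurable (fun (η : Site B e → Bool) (v : Site B e) => !(η v)) :=
      measurable_pi_lambda _ fun v => (measurable_of_finite (fun b : Bool => !b)).comp
        (measurable_pi_apply v)
    have hA : MeasurableSet {η : Site B e → Bool | η a = true} :=
      measurableSet_eq_fun (measurable_pi_apply a) measurable_const
    have e1 : π.real {η | η a = true} = π.real {η | η a = false} := by
      conv_lhs => rw [heq]
      rw [map_measureReal_apply hm hA]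
      congr 1
      ext η
      simp
    have e2 : π.real {η | η a = true} + π.real {η | η a = false} = 1 := by
      have : {η : Site B e → Bool | η a = false} = {η : Site B e → Bool | η a = true}ᶜ := by
        ext η; simp
      rw [this, probReal_compl_eq_one_sub hA]
      ring
    linarith

end Pool.Agent.Q291.HEA
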