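import Pool.Agent.Q291.HEA.Base
import Pool.Agent.Q291.HEA.Stm3

/-!
# Assembly of the second part
-/

namespace Pool.Agent.Q291.HEA

open MeasureTheory Filter Topology Set

theorem F_neg_left (x y : ℝ) : F (-x) y = -F x y := by
  unfold F
  have e1 : Real.cosh (-x + y) = Real.cosh (x - y) := by
    rw [← Real.cosh_neg]
    congr 1
    ring
  have e2 : Real.cosh (-x - y) = Real.cosh (x + y) := by
    rw [← Real.cosh_neg]
    congr 1
    ring
  rw [e1, e2, Real.log_div (Real.cosh_pos _).ne' (Real.cosh_pos _).ne',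
    Real.log_div (Real.cosh_pos _).ne' (Real.cosh_pos _).ne']
  ring

theorem F_neg_right (x y : ℝ) : F x (-y) = -F x y := by
  unfold F
  have e1 : Real.cosh (x + -y) = Real.cosh (x - y) := by
    congr 1
  have e2 : Real.cosh (x - -y) = Real.cosh (x + y) := by
    congr 1
    ring
  rw [e1, e2, Real.log_div (Real.cosh_pos _).ne' (Real.cosh_pos _).ne',
    Real.log_div (Real.cosh_pos _).ne' (Real.cosh_pos _).ne']
  ring

theorem F_meas : Measurable (Function.uncurry F) := by
  unfold Function.uncurry F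
  fun_prop

theorem F0_neg_left (x y : ℝ) : F0 (-x) y = -F0 x y := by
  unfold F0
  have e1 : |-x + y| = |x - y| := by
    rw [← abs_neg]
    congr 1
    ring
  have e2 : |-x - y| = |x + y| := by
    rw [← abs_neg]
    congr 1
    ring
  rw [e1, e2]
  ring

theorem F0_neg_right (x y : ℝ) : F0 x (-y) = -F0 x y := by
  unfold F0
  have e1 : |x + -y| = |x - y| := by
    congr 1
  have e2 : |x - -y| = |x + y| := by
    congr 1
    ring
  rw [e1, e2]
  ring

theorem F0_meas : Measurable (Function.uncurry F0) := by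
  unfold Function.uncurry F0
  fun_prop

theorem effG_F {B : ℕ} [NeZero B] {e : ℕ → Bool} (K : Bond B e → ℝ) (n : ℕ) (ω : Bond B e) :
    effG F K n ω = eff K n ω := by
  induction n generalizing ω with
  | zero => rfl
  | succ n ih => simp only [effG, eff, ih]

/-- Infinitely many levels at which the own half is the stronger one. -/
theorem io_F (hIO : P_IO) {B : ℕ} [NeZero B] {e : ℕ → Bool} (he : Alt e) (hB : 2 ≤ B)
    (μ : Measure ℝ) [IsProbabilityMeasure μ] (hs : Sym μ) (β : ℝ) :
    ∀ᵐ J ∂(Measure.infinitePi fun _ : Bond B e => μ),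
      ∃ᶠ n in atTop, |eff (fun b => β * J b) n (sib n)| ≤ |eff (fun b => β * J b) n orig| := by
  obtain ⟨c1, c2, -⟩ := Bas.hfin (B := B) he
  obtain ⟨s1, s2, s3, s4⟩ := Bas.sca (ι := Bond B e) μ β
  have : IsProbabilityMeasure (μ.map (fun x => β * x)) :=
    Measure.isProbabilityMeasure_map (measurable_const_mul β).aemeasurable
  have h := hIO he hB F F_meas F_neg_left F_neg_right (μ.map (fun x => β * x)) (s2 hs)
  have h' := s1 _ h
  filter_upwards [h'] with J hJ
  simpa only [effG_F] using hJ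

/-- The flip of all spins. -/
def fl {V : Type} (η : V → Bool) : V → Bool := fun v => !(η v)

theorem measurable_fl {V : Type} : Measurable (fl : (V → Bool) → V → Bool) :=
  measurable_pi_lambda _ fun v => (measurable_of_finite (fun b : Bool => !b)).comp
    (measurable_pi_apply v)

theorem real_map_fl {V : Type} (π : Measure (V → Bool)) [IsProbabilityMeasure π] (a : V) :
    (π.map fl).real {η : V → Bool | η a = true} = 1 - π.real {η : V → Bool | η a = true} := by
  have hA : MeasurableSet {η : V → Bool | η a = true} :=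
    measurableSet_eq_fun (measurable_pi_apply a) measurable_const
  rw [map_measureReal_apply measurable_fl hA]
  have : fl ⁻¹' {η : V → Bool | η a = true} = {η : V → Bool | η a = true}ᶜ := by
    ext η
    simp [fl]
  rw [this, probReal_compl_eq_one_sub hA]

theorem real_mix {Ω : Type} [MeasurableSpace Ω] (π π' : Measure Ω) [IsProbabilityMeasure π]
    [IsProbabilityMeasure π'] {t : ℝ} (h0 : 0 ≤ t) (h1 : t ≤ 1) (A : Set Ω) :
    (ENNReal.ofReal t • π + ENNReal.ofReal (1 - t) • π').real A = t * π.real A +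
      (1 - t) * π'.real A := by
  have e1 : (ENNReal.ofReal t • π) A ≠ ⊤ := by
    rw [Measure.smul_apply, smul_eq_mul]
    exact ENNReal.mul_ne_top ENNReal.ofReal_ne_top (measure_ne_top _ _)
  have e2 : (ENNReal.ofReal (1 - t) • π') A ≠ ⊤ := by
    rw [Measure.smul_apply, smul_eq_mul]
    exact ENNReal.mul_ne_top ENNReal.ofReal_ne_top (measure_ne_top _ _)
  rw [measureReal_add_apply e1 e2, measureReal_ennreal_smul_apply, measureReal_ennreal_smul_apply,
    ENNReal.toReal_ofReal h0, ENNReal.toReal_ofReal (by linarith)]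

/-- The second part. -/
theorem thmE2 (hIO : P_IO) (hHT : P_HT) (hEVEN : P_EVEN) (hTWO : P_TWO) (hMIX : P_MIX)
    (e : ℕ → Bool) (he : Alt e) :
    (∀ (B : ℕ) [NeZero B] (μ : Measure ℝ) [IsProbabilityMeasure μ], Integrable (fun x => x) μ →
      ∀ β : ℝ, B * (|β| * ∫ x, |x| ∂μ) < 1 →
      ∀ᵐ J ∂(Measure.infinitePi fun _ : Bond B e => μ), ∃! π, Gibbs β J π) ∧
    (∀ (B : ℕ) [NeZero B], 2 ≤ B → ∀ (μ : Measure ℝ) [IsProbabilityMeasure μ], Sym μ → ∀ β : ℝ,
      ∀ᵐ J ∂(Measure.infinitePi fun _ : Bond B e => μ), ∀ π π', Gibbs β J π → Gibbs β J π' →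
        ∀ A : Set (Site B e → Bool), MeasurableSet A → (∀ η, η ∈ A ↔ (fun v => !(η v)) ∈ A) →
          π.real A = π'.real A) ∧
    (∀ (B : ℕ) [NeZero B], 4 ≤ B → ∀ (μ : Measure ℝ) [IsProbabilityMeasure μ], Sym μ →
      (∃ l : ℝ, 0 < l ∧ Conc μ l (1 / 2)) → ∃ β₀ : ℝ, ∀ β : ℝ, β₀ ≤ β →
      ∀ᵐ J ∂(Measure.infinitePi fun _ : Bond B e => μ), ∃ π : Measure (Site B e → Bool),
        π.map (fun η v => !(η v)) ≠ π ∧
        (∀ δ : ℝ, δ < 1 → ∃ a : Site B e, δ ≤ |2 * π.real {η | η a = true} - 1|) ∧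
        ∀ π', Gibbs β J π' ↔ ∃ t : ℝ, 0 ≤ t ∧ t ≤ 1 ∧
          π' = ENNReal.ofReal t • π + ENNReal.ofReal (1 - t) • π.map (fun η v => !(η v))) := by
  refine ⟨fun B _ μ _ hi β hβ => ?_, fun B _ hB μ _ hs β => ?_, fun B _ hB μ _ hs hc => ?_⟩
  · obtain ⟨c1, c2, -⟩ := Bas.hfin (B := B) he
    obtain ⟨s1, s2, s3, s4⟩ := Bas.sca (ι := Bond B e) μ β
    have : IsProbabilityMeasure (μ.map (fun x => β * x)) :=
      Measure.isProbabilityMeasure_map (measurable_const_mul β).aemeasurable
    have hint : ∫ x, |x| ∂(μ.map (fun x => β * x)) = |β| * ∫ x, |x| ∂μ := by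
      rw [integral_map (measurable_const_mul β).aemeasurable (by fun_prop)]
      simp only [abs_mul]
      rw [integral_const_mul]
    obtain ⟨C, ρ, hρ, hρ1, hh⟩ := hHT B (μ.map (fun x => β * x)) (s4 hi) (by rw [hint]; exact hβ)
    have h5 := Bas.bc2 (B := B) he (μ.map (fun x => β * x)) C ρ hρ hρ1 hh
    have h6 := s1 _ h5
    filter_upwards [h6] with J hJ
    exact Bas.osc he (fun b => β * J b) hJ
  · filter_upwards [io_F hIO he hB μ hs β] with J hJ
    intro π π' h1 h2 A hA hA'
    exact hEVEN he _ hJ π π' h1 h2 A hA hA'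
  · obtain ⟨c1, c2, hlf, -⟩ := Bas.hfin (B := B) he
    obtain ⟨L, C, ρ, hL, hC, hρ, hρ1, hit⟩ := Bas.iter B hB
    obtain ⟨l, hl, hcon⟩ := hc
    refine ⟨L / l, fun β hβ => ?_⟩
    have hβ0 : 0 < β := lt_of_lt_of_le (div_pos hL hl) hβ
    obtain ⟨s1, s2, s3, s4⟩ := Bas.sca (ι := Bond B e) μ β
    have : IsProbabilityMeasure (μ.map (fun x => β * x)) :=
      Measure.isProbabilityMeasure_map (measurable_const_mul β).aemeasurable
    have hle : L ≤ β * l := by
      rw [div_le_iff₀ hl] at hβ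
      exact hβ
    have h4 : Conc (μ.map (fun x => β * x)) L (1 / 2) := fun x =>
      (measureReal_mono (Ico_subset_Ico_right (by linarith)) (measure_ne_top _ _)).trans
        (s3 l (1 / 2) hβ0 hcon x)
    have h5 := Bas.bc1 (B := B) he (μ.map (fun x => β * x)) L C ρ hL hC hρ hρ1
      (hit _ (s2 hs) h4)
    have h6 := s1 _ h5
    filter_upwards [h6, io_F hIO he (by omega) μ hs β] with J hJ hJ'
    obtain ⟨π, hπ, hdes⟩ := hTWO he (fun b => β * J b) hJ hJ'
    have hp : IsProbabilityMeasure π := hπ.1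
    have hfl : IsGibbs (lend 0) (rend 0) (fun b => β * J b) (π.map fun η v => !(η v)) :=
      Bas.gfl _ _ hlf _ π hπ
    have key : ∀ δ : ℝ, δ < 1 → ∃ a : Site B e, δ ≤ |2 * π.real {η | η a = true} - 1| := by
      intro δ hδ
      obtain ⟨a, π', h1, h2⟩ := Bas.low he (fun b => β * J b) hJ ((1 + δ) / 2) (by linarith)
      obtain ⟨t, ht0, ht1, ht⟩ := hdes π' h1
      refine ⟨a, ?_⟩
      have hf := real_map_fl π a
      have hfp : IsProbabilityMeasure (π.map (fun η v => !(η v))) := hfl.1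
      have e1 : π'.real {η | η a = true} = t * π.real {η | η a = true} +
          (1 - t) * (1 - π.real {η | η a = true}) := by
        rw [ht, real_mix π _ ht0 ht1]
        change _ + _ * (π.map fl).real _ = _
        rw [hf]
      rw [e1] at h2
      set x := π.real {η | η a = true} with hx
      have hx0 : 0 ≤ x := measureReal_nonneg
      have hx1 : x ≤ 1 := measureReal_le_one
      rcases le_total (1 / 2) x with h | h
      · rw [abs_of_nonneg (by linarith)]
        nlinarith
      · rw [abs_of_nonpos (by linarith)]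
        nlinarith
    refine ⟨π, ?_, key, fun π' => ⟨fun h => hdes π' h, ?_⟩⟩
    · intro heq
      obtain ⟨a, ha⟩ := key (1 / 2) (by norm_num)
      have hf := real_map_fl π a
      have : (π.map fl) = π := heq
      rw [this] at hf
      have : 2 * π.real {η | η a = true} - 1 = 0 := by linarith
      rw [this] at ha
      norm_num at ha
    · rintro ⟨t, ht0, ht1, rfl⟩
      exact hMIX _ _ hlf _ π _ hπ hfl t ht0 ht1

/-- Ground states. -/
theorem thmG (hIO : P_IO) (hGEN : P_GEN) (hGEXI : P_GEXI) (hCON : P_CON) (hGSU : P_GSU)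
    (e : ℕ → Bool) (he : Alt e) (B : ℕ) [NeZero B] (hB : 2 ≤ B) (μ : Measure ℝ)
    [IsProbabilityMeasure μ] (hs : Sym μ) (ha : ∀ x, μ {x} = 0) :
    ∀ᵐ J ∂(Measure.infinitePi fun _ : Bond B e => μ), ∃ σ : Site B e → Bool, ∀ τ,
      IsGround (lend 0) (rend 0) J τ ↔ τ = σ ∨ τ = fun v => !(σ v) := by
  obtain ⟨c1, c2, hlf, -⟩ := Bas.hfin (B := B) he
  filter_upwards [hGEN (E := Bond B e) μ ha, hIO he hB F0 F0_meas F0_neg_left F0_neg_right μ hs]
    with J hg hio
  obtain ⟨σ, hσ⟩ := hGEXI (lend 0) (rend 0) hlf (hCON he) J hg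
  refine ⟨σ, fun τ => ⟨fun hτ => hGSU he J hg hio σ τ hσ hτ, ?_⟩⟩
  rintro (rfl | rfl)
  · exact hσ
  · intro σ' hne hfin
    have := hσ (fun v => !(σ' v)) (fun h => hne (by
      funext v
      have := congrFun h v
      rw [← this]
      simp)) (by
        refine hfin.subset fun v hv hv' => hv ?_
        simp only [hv', Bool.not_not])
    have hneg : ∀ b : Bool, sgn (!b) = -sgn b := by
      intro b
      cases b <;> simp [sgn]
    simpa only [hneg, neg_mul_neg] using this

end Pool.Agent.Q291.HEA
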