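import Pool.Agent.Q291.HEA.Fin2
import Pool.Agent.Q277.HEA.MARK
import Pool.Agent.Q277.HEA.HT
import Pool.Agent.Q277.HEA.MIX
import Pool.Agent.Q277.HEA.GEN
import Pool.Agent.Q277.HEA.CONN
import Pool.Agent.Q137.HEA.CB
import Pool.Agent.Q137.HEA.EVEN
import Pool.Agent.Q137.HEA.TWO
import Pool.Agent.Q137.HEA.DECZ
import Pool.Agent.Q137.HEA.GSU
import Pool.Agent.Q261.HEA.IO
import Pool.Agent.Q261.HEA.GEXI

/-!
# The theorems of project HEA
-/

namespace Pool.Agent.Q291.HEA

open MeasureTheory Filter Topology Set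

theorem io : P_IO := Pool.Agent.Q261.HEA.IO.t_IO Pool.Agent.Q277.HEA.MARK.t_MARK
  Pool.Agent.Q137.HEA.CB.t_CB

/-- A symmetric law with `μ {0} < 1 / 2` gives mass at most `1 / 2` to short intervals. -/
theorem conc_of_zero (μ : Measure ℝ) [IsProbabilityMeasure μ] (hs : Sym μ)
    (h0 : μ.real {0} < 1 / 2) : ∃ l : ℝ, 0 < l ∧ Conc μ l (1 / 2) := by
  have hlim : Tendsto (fun n : ℕ => μ.real (Icc (-(1 / ((n : ℝ) + 1))) (1 / ((n : ℝ) + 1)))) atTop
      (𝓝 (μ.real {0})) := by
    have hset : (⋂ n : ℕ, Icc (-(1 / ((n : ℝ) + 1))) (1 / ((n : ℝ) + 1))) = {0} := by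
      ext x
      simp only [mem_iInter, mem_Icc, mem_singleton_iff]
      constructor
      · intro h
        have h1 : Tendsto (fun n : ℕ => 1 / ((n : ℝ) + 1)) atTop (𝓝 0) :=
          tendsto_one_div_add_atTop_nhds_zero_nat
        have h2 : Tendsto (fun n : ℕ => -(1 / ((n : ℝ) + 1))) atTop (𝓝 0) := by
          simpa using h1.neg
        exact le_antisymm (ge_of_tendsto' h1 fun n => (h n).2) (le_of_tendsto' h2 fun n => (h n).1)
      · rintro rfl n
        have : (0 : ℝ) < 1 / ((n : ℝ) + 1) := by positivity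
        constructor <;> linarith
    have hm := tendsto_measure_iInter_atTop (μ := μ)
      (s := fun n : ℕ => Icc (-(1 / ((n : ℝ) + 1))) (1 / ((n : ℝ) + 1)))
      (fun n => measurableSet_Icc.nullMeasurableSet) (by
        intro m n hmn
        have hmn' : (m : ℝ) ≤ n := by exact_mod_cast hmn
        have : 1 / ((n : ℝ) + 1) ≤ 1 / ((m : ℝ) + 1) := by
          apply one_div_le_one_div_of_le
          · positivity
          · linarith
        exact Icc_subset_Icc (by linarith) this) ⟨0, measure_ne_top _ _⟩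
    rw [hset] at hm
    exact (ENNReal.tendsto_toReal (measure_ne_top _ _)).comp hm
  obtain ⟨n, hn⟩ := (hlim.eventually (eventually_lt_nhds h0)).exists
  refine ⟨1 / ((n : ℝ) + 1), by positivity, fun x => ?_⟩
  set l : ℝ := 1 / ((n : ℝ) + 1) with hl
  have hlpos : 0 < l := by positivity
  by_cases hx : Ico x (x + l) ⊆ Icc (-l) l
  · exact (measureReal_mono hx (measure_ne_top _ _)).trans hn.le
  · -- the interval and its reflection are disjoint
    have hdis : Disjoint (Ico x (x + l)) ((fun y : ℝ => -y) ⁻¹' Ico x (x + l)) := by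
      rw [Set.disjoint_left]
      intro y hy hy'
      apply hx
      intro z hz
      simp only [mem_preimage, mem_Ico, mem_Icc] at *
      constructor <;> linarith [hy.1, hy.2, hy'.1, hy'.2, hz.1, hz.2]
    have hrefl : μ.real ((fun y : ℝ => -y) ⁻¹' Ico x (x + l)) = μ.real (Ico x (x + l)) := by
      have h1 : (μ.map (fun y : ℝ => -y)).real (Ico x (x + l)) = μ.real (Ico x (x + l)) := by
        rw [show μ.map (fun y : ℝ => -y) = μ from hs]
      rw [map_measureReal_apply measurable_neg measurableSet_Ico] at h1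
      exact h1
    have hsum : μ.real (Ico x (x + l)) + μ.real ((fun y : ℝ => -y) ⁻¹' Ico x (x + l)) ≤ 1 := by
      rw [← measureReal_union hdis (measurable_neg measurableSet_Ico)]
      exact measureReal_le_one
    rw [hrefl] at hsum
    linarith

noncomputable def main (e : ℕ → Bool) (he : Alt e) :=
  thmE2 io Pool.Agent.Q277.HEA.HT.t_HT Pool.Agent.Q137.HEA.EVEN.t_EVEN
    Pool.Agent.Q137.HEA.TWO.t_TWO Pool.Agent.Q277.HEA.MIX.t_MIX e he

end Pool.Agent.Q291.HEA
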