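import Pool.Agent.Q291.HEA.Fin3
import Pool.Agent.Q53.HEA.SEG

/-!
# Gibbs states at every temperature
-/

namespace Pool.Agent.Q291.HEA

open MeasureTheory Filter Topology Set ProbabilityTheory

theorem fv_nonneg {V E : Type} (l r : E → V) (K : E → ℝ) (Λ : Finset V) (σ : V → Bool)
    (A : Set (V → Bool)) : 0 ≤ finiteVolume l r K Λ σ A := by
  unfold finiteVolume
  apply div_nonneg
  · exact Finset.sum_nonneg fun η _ => mul_nonneg (Real.exp_pos _).le
      (Set.indicator_nonneg (fun _ _ => zero_le_one) _)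
  · exact Finset.sum_nonneg fun η _ => (Real.exp_pos _).le

theorem ex_gibbs {V E : Type} [Countable V] (l r : E → V) (h : LF l r) (K : E → ℝ) (a : V) :
    ∃ π, IsGibbs l r K π := by
  obtain ⟨f, hf⟩ := Countable.exists_injective_nat V
  have hfin : ∀ n : ℕ, {v : V | f v < n}.Finite := fun n =>
    (Set.finite_lt_nat n).preimage hf.injOn
  obtain ⟨π, hπ, -⟩ := Bas.gex l r h K (fun n => (hfin n).toFinset)
    (by
      intro m n hmn v hv
      simp only [Set.Finite.mem_toFinset, mem_setOf_eq] at hv ⊢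
      omega)
    (fun v => ⟨f v + 1, by simp⟩) a 0 (fun _ _ => true)
    (Filter.Eventually.of_forall fun n => fv_nonneg l r K _ _ _)
  exact ⟨π, hπ⟩

/-- At every temperature the Gibbs states are the mixtures of one Gibbs state and its flip. -/
theorem thmS (e : ℕ → Bool) (he : Alt e) : ∀ (B : ℕ) [NeZero B], 2 ≤ B →
    ∀ (μ : Measure ℝ) [IsProbabilityMeasure μ], μ.map (fun x => -x) = μ → ∀ β : ℝ,
      ∀ᵐ J ∂(Measure.infinitePi fun _ : Bond B e => μ), ∃ π : Measure (Site B e → Bool),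
        ∀ π', Gibbs β J π' ↔ ∃ t : ℝ, 0 ≤ t ∧ t ≤ 1 ∧
          π' = ENNReal.ofReal t • π + ENNReal.ofReal (1 - t) • π.map (fun η v => !(η v)) := by
  intro B _ hB μ _ hs β
  obtain ⟨-, m2, -⟩ := main e he
  have hlf : LF (lend (B := B) (e := e) 0) (rend 0) := (@Bas.hfin B _ e he).2.2.1
  have hc : Countable (Site B e) := (@Bas.hfin B _ e he).2.1
  filter_upwards [m2 B hB μ hs β] with J hJ
  obtain ⟨π, hπ, h⟩ := t_SEG (lend (B := B) (e := e) 0) (rend 0) hlf (fun b => β * J b)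
    (ex_gibbs _ _ hlf _ (mid 0 0 orig)) (fun π π' h1 h2 A hA hf => hJ π π' h1 h2 A hA hf)
  refine ⟨π, fun π' => ⟨fun h' => h π' h', ?_⟩⟩
  rintro ⟨t, ht0, ht1, rfl⟩
  exact Pool.Agent.Q277.HEA.MIX.t_MIX _ _ hlf _ π (π.map fun η v => !(η v)) hπ
    (Bas.gfl _ _ hlf _ π hπ) t ht0 ht1

end Pool.Agent.Q291.HEA
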