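import Mathlib

/-!
# Ising spin glasses on the infinite hierarchical (diamond) lattice

A cell of level `0` is a bond. A cell of level `n + 1` consists of `B` parallel branches with the
same two end sites; each branch consists of two cells of level `n` in series, which meet in the
middle site of the branch. With `B = 2 ^ (d - 1)` this is the hierarchical lattice on which the
Migdal-Kadanoff recursion with scale factor `2` in dimension `d` is exact. The infinite lattice is
the increasing union of cells of all levels: for each `n` the cell of level `n` around the origin is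
the half `e n` (`false`: left, `true`: right) of branch `0` of the cell of level `n + 1` around the
origin. If `e` takes both values infinitely often, then each site has finitely many bonds.
-/

open MeasureTheory

namespace Pool.Agent.Q291.HEA

/-- The position of a cell of level `k` in the cell of level `k + 1` which contains it: the branch
and the half (`false`: left, `true`: right). -/
abbrev Pos (B : ℕ) : Type := Fin B × Bool

/-- The bonds: `ω k` is the position of the cell of level `k` which contains the bond in the cell of
level `k + 1` which contains the bond. -/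
def Bond (B : ℕ) [NeZero B] (e : ℕ → Bool) : Type := {ω : ℕ → Pos B // ∃ n, ∀ k, n ≤ k → ω k = (0, e k)}

/-- The sites: `(j, i, ω)` is the middle site of branch `i` of the cell of level `j + 1` whose
position at the levels `k > j` is `ω k` (and `ω k` is trivial for `k ≤ j`). -/
def Site (B : ℕ) [NeZero B] (e : ℕ → Bool) : Type :=
  {v : ℕ × Fin B × Bond B e // ∀ k, k ≤ v.1 → v.2.2.1 k = (0, e k)}

variable {B : ℕ} [NeZero B] {e : ℕ → Bool}

/-- The middle site of branch `i` of the cell of level `j + 1` which contains the bond `ω`. -/
def mid (j : ℕ) (i : Fin B) (ω : Bond B e) : Site B e :=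
  ⟨(j, i, ⟨fun k => if k ≤ j then (0, e k) else ω.1 k, by
    obtain ⟨n, h⟩ := ω.2
    exact ⟨n, fun k hk => by
      by_cases hj : k ≤ j
      · simp [hj]
      · simp [hj, h k hk]⟩⟩), fun k hk => by simp [show k ≤ j from hk]⟩

/-- The left end of the cell of level `n` which contains the bond `ω`: the middle site of the branch
in which, at the first level `j ≥ n`, the cell lies in the right half. -/
noncomputable def lend (n : ℕ) (ω : Bond B e) : Site B e :=
  mid (sInf {j | n ≤ j ∧ (ω.1 j).2 = true}) (ω.1 (sInf {j | n ≤ j ∧ (ω.1 j).2 = true})).1 ω

/-- The right end of the cell of level `n` which contains the bond `ω`. -/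
noncomputable def rend (n : ℕ) (ω : Bond B e) : Site B e :=
  mid (sInf {j | n ≤ j ∧ (ω.1 j).2 = false}) (ω.1 (sInf {j | n ≤ j ∧ (ω.1 j).2 = false})).1 ω

/-- `true` stands for the spin `1`, `false` for `-1`. -/
def sgn (s : Bool) : ℝ := if s then 1 else -1

section Graph

variable {V E : Type} (l r : E → V)

/-- `∑ K b σ (l b) σ (r b)`, summed over the bonds with at least one end in `Λ`. -/
noncomputable def energy (K : E → ℝ) (Λ : Finset V) (σ : V → Bool) : ℝ :=
  ∑ᶠ b ∈ {b | l b ∈ Λ ∨ r b ∈ Λ}, K b * (sgn (σ (l b)) * sgn (σ (r b)))

open Classical in
/-- The configuration equal to `η` on `Λ` and to `σ` off `Λ`. -/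
noncomputable def glue (Λ : Finset V) (η : Λ → Bool) (σ : V → Bool) : V → Bool :=
  fun v => if h : v ∈ Λ then η ⟨v, h⟩ else σ v

open Classical in
/-- The probability of `A` under the Ising measure in `Λ` with couplings `K` and boundary
condition `σ`. -/
noncomputable def finiteVolume (K : E → ℝ) (Λ : Finset V) (σ : V → Bool) (A : Set (V → Bool)) : ℝ :=
  (∑ η : Λ → Bool, Real.exp (energy l r K Λ (glue Λ η σ)) *
      A.indicator (fun _ => (1 : ℝ)) (glue Λ η σ)) /
    ∑ η : Λ → Bool, Real.exp (energy l r K Λ (glue Λ η σ))

/-- Gibbs states: probability measures on the configurations which satisfy the DLR equations for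
all finite sets. -/
def IsGibbs (K : E → ℝ) (π : Measure (V → Bool)) : Prop :=
  IsProbabilityMeasure π ∧ ∀ (Λ : Finset V) (A : Set (V → Bool)), MeasurableSet A →
    π.real A = ∫ σ, finiteVolume l r K Λ σ A ∂π

end Graph

/-- Gibbs states of the Ising model on the infinite hierarchical lattice with couplings `J` at
inverse temperature `β`. -/
def Gibbs (β : ℝ) (J : Bond B e → ℝ) (π : Measure (Site B e → Bool)) : Prop :=
  IsGibbs (lend 0) (rend 0) (fun b => β * J b) π

end Pool.Agent.Q291.HEA
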