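import Pool.Agent.Q291.HEA.Stm

/-!
# Statements of the lemmas of project HEA (second part: Gibbs states)
-/

namespace Pool.Agent.Q291.HEA

open MeasureTheory Filter Topology Set

/-! ## Gibbs states on general locally finite graphs -/

/-- Each site has finitely many bonds. -/
def LF {V E : Type} (l r : E → V) : Prop := ∀ v, {b | l b = v ∨ r b = v}.Finite

open Classical in
/-- Job GCO: the finite volume measures are consistent. -/
def P_GCO : Prop := ∀ {V E : Type} [Countable V] (l r : E → V), LF l r → ∀ (K : E → ℝ)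
  (Λ Δ : Finset V), Λ ⊆ Δ → ∀ (σ : V → Bool) (A : Set (V → Bool)), MeasurableSet A →
  (∀ η : V → Bool, 0 ≤ finiteVolume l r K Λ η A ∧ finiteVolume l r K Λ η A ≤ 1) ∧
  finiteVolume l r K Δ σ A =
    (∑ η : Δ → Bool, Real.exp (energy l r K Δ (glue Δ η σ)) *
      finiteVolume l r K Λ (glue Δ η σ) A) /
    ∑ η : Δ → Bool, Real.exp (energy l r K Δ (glue Δ η σ))

/-- Job GEX: existence of a Gibbs state, with a bound for an event at one site. -/
def P_GEX : Prop := ∀ {V E : Type} [Countable V] (l r : E → V), LF l r → ∀ (K : E → ℝ)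
  (Λ : ℕ → Finset V), Monotone Λ → (∀ v, ∃ n, v ∈ Λ n) → ∀ (a : V) (δ : ℝ) (σ : ℕ → V → Bool),
  (∀ᶠ n in atTop, δ ≤ finiteVolume l r K (Λ n) (σ n) {η | η a = true}) →
  ∃ π, IsGibbs l r K π ∧ δ ≤ π.real {η | η a = true}

/-- Job GFL: the global spin flip of a Gibbs state is a Gibbs state. -/
def P_GFL : Prop := ∀ {V E : Type} [Countable V] (l r : E → V), LF l r → ∀ (K : E → ℝ)
  (π : Measure (V → Bool)), IsGibbs l r K π → IsGibbs l r K (π.map fun η v => !(η v))

/-- Job GUN: uniqueness. -/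
def P_GUN : Prop := ∀ {V E : Type} [Countable V] (l r : E → V), LF l r → ∀ (K : E → ℝ)
  (Λ : ℕ → Finset V), Monotone Λ → (∀ v, ∃ n, v ∈ Λ n) →
  (∀ (m : ℕ) (A : Set (V → Bool)), MeasurableSet A →
    (∀ η η' : V → Bool, (∀ v ∈ Λ m, η v = η' v) → (η ∈ A ↔ η' ∈ A)) → ∀ ε : ℝ, 0 < ε → ∃ n, ∀ σ σ',
      |finiteVolume l r K (Λ n) σ A - finiteVolume l r K (Λ n) σ' A| ≤ ε) →
  ∀ π π', IsGibbs l r K π → IsGibbs l r K π' → π = π'

/-! ## Cells of the hierarchical lattice -/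

variable {B : ℕ} [NeZero B] {e : ℕ → Bool}

/-- The halves `e` take both values infinitely often. -/
def Alt (e : ℕ → Bool) : Prop := (∀ n, ∃ k, n ≤ k ∧ e k = true) ∧ ∀ n, ∃ k, n ≤ k ∧ e k = false

/-- The bond at the origin. -/
def orig : Bond B e := ⟨fun k => (0, e k), 0, fun _ _ => rfl⟩

/-- Change of the position at level `n`. -/
def upd (ω : Bond B e) (n : ℕ) (p : Pos B) : Bond B e :=
  ⟨Function.update ω.1 n p, by
    obtain ⟨N, h⟩ := ω.2
    exact ⟨max N (n + 1), fun k hk => by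
      rw [Function.update_of_ne (by omega), h k (by omega)]⟩⟩

/-- The bonds of the cell of level `n` which contains `ω`. -/
def cellb (n : ℕ) (ω : Bond B e) : Set (Bond B e) := {b | ∀ k, n ≤ k → b.1 k = ω.1 k}

/-- The interior sites of the cell of level `n` which contains `ω`. -/
def inner (n : ℕ) (ω : Bond B e) : Set (Site B e) :=
  {v | v.1.1 < n ∧ ∀ k, n ≤ k → v.1.2.2.1 k = ω.1 k}

/-- The effective coupling of the cell of level `n` which contains `ω`. -/
noncomputable def eff (K : Bond B e → ℝ) : ℕ → Bond B e → ℝ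
  | 0, ω => K ω
  | n + 1, ω => ∑ i : Fin B, F (eff K n (upd ω n (i, false))) (eff K n (upd ω n (i, true)))

/-- Job HFIN: finiteness. -/
def P_HFIN : Prop := ∀ {B : ℕ} [NeZero B] {e : ℕ → Bool}, Alt e →
  Countable (Bond B e) ∧ Countable (Site B e) ∧ LF (lend (B := B) (e := e) 0) (rend 0) ∧
  (∀ n (ω : Bond B e), (cellb n ω).Finite ∧ (inner n ω).Finite ∧ lend n ω ∉ inner n ω ∧
    rend n ω ∉ inner n ω ∧ lend n ω ≠ rend n ω) ∧
  (∀ n (ω : Bond B e), {b : Bond B e | lend 0 b ∈ inner n ω ∨ rend 0 b ∈ inner n ω} ⊆ cellb n ω) ∧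
  (∀ n (ω : Bond B e), 0 < n →
    {b : Bond B e | lend 0 b ∈ inner n ω ∨ rend 0 b ∈ inner n ω} = cellb n ω) ∧
  Monotone (fun n => inner n (orig : Bond B e)) ∧ ∀ v : Site B e, ∃ n, v ∈ inner n orig

/-- Job ENDS: the ends of the two halves of a branch. -/
def P_ENDS : Prop := ∀ {B : ℕ} [NeZero B] {e : ℕ → Bool}, Alt e → ∀ (n : ℕ) (ω : Bond B e)
  (i : Fin B), lend n (upd ω n (i, false)) = lend (n + 1) ω ∧
  rend n (upd ω n (i, false)) = mid n i ω ∧ lend n (upd ω n (i, true)) = mid n i ω ∧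
  rend n (upd ω n (i, true)) = rend (n + 1) ω ∧
  (∀ b, b ∈ cellb (n + 1) ω ↔ ∃ p, b ∈ cellb n (upd ω n p)) ∧
  (∀ v, v ∈ inner (n + 1) ω ↔ (∃ j, v = mid n j ω) ∨ ∃ p, v ∈ inner n (upd ω n p)) ∧
  (∀ b, b ∈ cellb n ω → (lend 0 b = lend n ω ∨ lend 0 b ∈ inner n ω) ∧
    (rend 0 b = rend n ω ∨ rend 0 b ∈ inner n ω))

open Classical in
/-- Job DEC: decimation of a cell. -/
def P_DEC : Prop := ∀ {B : ℕ} [NeZero B] {e : ℕ → Bool}, Alt e → ∀ (K : Bond B e → ℝ) (n : ℕ)
  (ω : Bond B e) (Λ : Finset (Site B e)), (∀ v, v ∈ Λ ↔ v ∈ inner n ω) →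
  ∃ A : ℝ, 0 < A ∧ ∀ σ : Site B e → Bool,
    ∑ η : Λ → Bool, Real.exp (∑ᶠ b ∈ cellb n ω,
      K b * (sgn (glue Λ η σ (lend 0 b)) * sgn (glue Λ η σ (rend 0 b)))) =
    A * Real.exp (eff K n ω * (sgn (σ (lend n ω)) * sgn (σ (rend n ω))))

open Classical in
/-- Job MEM: one level. The cell of level `n` around the origin is a half of branch `0` of the cell
of level `n + 1`; the law of its new end `mid n 0 orig` given the ends of the cell of level
`n + 1`. -/
def P_MEM : Prop := ∀ {B : ℕ} [NeZero B] {e : ℕ → Bool}, Alt e → ∀ (K : Bond B e → ℝ) (n : ℕ)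
  (Λ Λ' : Finset (Site B e)), (∀ v, v ∈ Λ ↔ v ∈ inner n (orig : Bond B e)) →
  (∀ v, v ∈ Λ' ↔ v ∈ inner (n + 1) (orig : Bond B e)) → ∀ (A : Set (Site B e → Bool)),
  MeasurableSet A → (∀ η η' : Site B e → Bool, (∀ v ∈ insert (mid n 0 orig) (Λ : Set (Site B e)),
    η v = η' v) → (η ∈ A ↔ η' ∈ A)) → ∀ σ : Site B e → Bool,
  let x := eff K n (upd orig n (0, false)) * sgn (σ (lend (n + 1) orig)) +
    eff K n (upd orig n (0, true)) * sgn (σ (rend (n + 1) orig))
  finiteVolume (lend 0) (rend 0) K Λ' σ A =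
    (1 + Real.tanh x) / 2 *
      finiteVolume (lend 0) (rend 0) K Λ (Function.update σ (mid n 0 orig) true) A +
    (1 - Real.tanh x) / 2 *
      finiteVolume (lend 0) (rend 0) K Λ (Function.update σ (mid n 0 orig) false) A

/-- Job DEP: the finite volume measure depends on the boundary condition through the two ends. -/
def P_DEP : Prop := ∀ {B : ℕ} [NeZero B] {e : ℕ → Bool}, Alt e → ∀ (K : Bond B e → ℝ) (n : ℕ)
  (Λ : Finset (Site B e)), (∀ v, v ∈ Λ ↔ v ∈ inner n (orig : Bond B e)) →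
  ∀ (S : Set (Site B e)) (A : Set (Site B e → Bool)),
  (∀ η η' : Site B e → Bool, (∀ v ∈ S ∪ Λ, η v = η' v) → (η ∈ A ↔ η' ∈ A)) →
  ∀ σ σ' : Site B e → Bool, (∀ v ∈ S ∪ {lend n orig, rend n orig}, σ v = σ' v) →
  finiteVolume (lend 0) (rend 0) K Λ σ A = finiteVolume (lend 0) (rend 0) K Λ σ' A

/-! ## Deterministic couplings -/

/-- The effective couplings of the two halves of branch `0` of the cell of level `n + 1` around the
origin. -/
noncomputable def two (K : Bond B e → ℝ) (n : ℕ) : ℝ × ℝ :=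
  (eff K n (upd orig n (0, false)), eff K n (upd orig n (0, true)))

/-- Job OSC: small effective couplings imply uniqueness. -/
def P_OSC : Prop := ∀ {B : ℕ} [NeZero B] {e : ℕ → Bool}, Alt e → ∀ (K : Bond B e → ℝ),
  Summable (fun n => |(two K n).1| + |(two K n).2|) →
  ∃! π, IsGibbs (lend (B := B) (e := e) 0) (rend 0) K π

/-- Job LOW: if the effective couplings of the two halves are very different at all high levels, then
the spins of some sites are almost frozen in some Gibbs states. -/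
def P_LOW : Prop := ∀ {B : ℕ} [NeZero B] {e : ℕ → Bool}, Alt e → ∀ (K : Bond B e → ℝ),
  Summable (fun n => 1 - Real.tanh (|(|(two K n).1| - |(two K n).2|)|)) → ∀ δ : ℝ, δ < 1 →
  ∃ (a : Site B e) (π : Measure (Site B e → Bool)), IsGibbs (lend (B := B) (e := e) 0) (rend 0) K π ∧
    δ ≤ π.real {η | η a = true}

/-! ## Random couplings -/

/-- Job LAWK: the joint law of the effective couplings of two halves of a branch. -/
def P_LAWK : Prop := ∀ {B : ℕ} [NeZero B] {e : ℕ → Bool}, Alt e → ∀ (μ : Measure ℝ)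
  [IsProbabilityMeasure μ] (n : ℕ), Measurable (fun K : Bond B e → ℝ => two K n) ∧
  (Measure.infinitePi fun _ : Bond B e => μ).map (fun K => two K n) =
    (lawN B μ n).prod (lawN B μ n)

/-- Job BC1. -/
def P_BC1 : Prop := ∀ {B : ℕ} [NeZero B] {e : ℕ → Bool}, Alt e → ∀ (μ : Measure ℝ)
  [IsProbabilityMeasure μ] (L C ρ : ℝ), 0 < L → 0 < C → 0 < ρ → ρ < 1 →
  (∀ n, Conc (lawN B μ n) L (C * ρ ^ n)) → ∀ᵐ K ∂(Measure.infinitePi fun _ : Bond B e => μ),
  Summable (fun n => 1 - Real.tanh (|(|(two K n).1| - |(two K n).2|)|))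

/-- Job BC2. -/
def P_BC2 : Prop := ∀ {B : ℕ} [NeZero B] {e : ℕ → Bool}, Alt e → ∀ (μ : Measure ℝ)
  [IsProbabilityMeasure μ] (C ρ : ℝ), 0 < ρ → ρ < 1 →
  (∀ n, Integrable (fun x => x) (lawN B μ n) ∧ ∫ x, |x| ∂(lawN B μ n) ≤ C * ρ ^ n) →
  ∀ᵐ K ∂(Measure.infinitePi fun _ : Bond B e => μ), Summable (fun n => |(two K n).1| + |(two K n).2|)

/-- Job SCA: change of the inverse temperature. -/
def P_SCA : Prop := ∀ {ι : Type} [Countable ι] (μ : Measure ℝ) [IsProbabilityMeasure μ] (β : ℝ),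
  (∀ p : (ι → ℝ) → Prop, (∀ᵐ K ∂(Measure.infinitePi fun _ : ι => μ.map (fun x => β * x)), p K) →
    ∀ᵐ J ∂(Measure.infinitePi fun _ : ι => μ), p (fun b => β * J b)) ∧
  (Sym μ → Sym (μ.map (fun x => β * x))) ∧
  (∀ l p : ℝ, 0 < β → Conc μ l p → Conc (μ.map (fun x => β * x)) (β * l) p) ∧
  (Integrable (fun x => x) μ → Integrable (fun x => x) (μ.map (fun x => β * x)))

end Pool.Agent.Q291.HEA
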