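import Pool.Agent.Q291.HEA.Stm3

/-!
# Statements of the lemmas of project HEA (fourth part)
-/

namespace Pool.Agent.Q291.HEA

open MeasureTheory Filter Topology Set ProbabilityTheory

/-- Job SEG: if all Gibbs states agree on the events which are invariant under the global spin flip,
then the Gibbs states are the mixtures of one Gibbs state and its flip. -/
def P_SEG : Prop := ∀ {V E : Type} [Countable V] (l r : E → V), LF l r → ∀ (K : E → ℝ),
  (∃ π, IsGibbs l r K π) →
  (∀ π π' : Measure (V → Bool), IsGibbs l r K π → IsGibbs l r K π' → ∀ A : Set (V → Bool),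
    MeasurableSet A → (∀ η : V → Bool, η ∈ A ↔ (fun v => !(η v)) ∈ A) → π.real A = π'.real A) →
  ∃ π : Measure (V → Bool), IsGibbs l r K π ∧ ∀ π', IsGibbs l r K π' → ∃ t : ℝ, 0 ≤ t ∧ t ≤ 1 ∧
    π' = ENNReal.ofReal t • π + ENNReal.ofReal (1 - t) • π.map (fun η v => !(η v))

end Pool.Agent.Q291.HEA
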